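import Mathlib
import Pool.Agent.Helper29.SphU.Defs
import Pool.Agent.Helper29.SphU.TameAbs

/-!
# Tame Banach spaces with a Hilbert subquotient of full density have a Hilbert sphere

The tame Banach spaces form the smallest class which contains the Hilbert spaces and is closed under
superreflexive spaces with a uniformly homeomorphic unit sphere, subquotients, finite
representability, countable `ℓ^p`-sums with `1 < p < ∞`, and superreflexive extensions. For a tame
space `X` and an infinite dimensional Hilbert space `H` with `dens X ≤ dim H`, the unit spheres of
`X` and `H` are uniformly homeomorphic as soon as this holds for one Banach subquotient of `X`.

The proof works with positively homogeneous bijections which are uniformly continuous on bounded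
sets in both directions. In a uniformly convex Banach space the lifting of minimal norm of a
quotient map is positively homogeneous and uniformly continuous on bounded sets, so the space is
equivalent to the product of any closed subspace and its quotient; then one uses Pelczynski's
decomposition method with Hilbertian sums, ultrapowers, Mazur maps with values in a Banach space,
Day's theorem on sums of uniformly convex spaces, and a closing off argument which controls the
density characters.
-/

universe u

set_option linter.dupNamespace false

namespace Pool.Agent.Results.MP_0402b8_an.TameSpaces

open Pool.Agent.Helper29.SphereUniform

theorem result (X H : Type u) [NormedAddCommGroup X] [NormedSpace ℝ X]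
    [NormedAddCommGroup H] [InnerProductSpace ℝ H] [CompleteSpace H]
    (hX : Tame X) (hH : ¬ FiniteDimensional ℝ H) (hd : DensityLE X H) :
    SpheresEquivalent X H ↔
      ∃ (W : Type u) (_ : NormedAddCommGroup W) (_ : NormedSpace ℝ W),
        CompleteSpace W ∧ Subquotient W X ∧ SpheresEquivalent W H :=
  Pool.Agent.Helper29.SphU.tame_main hX hH hd

end Pool.Agent.Results.MP_0402b8_an.TameSpaces
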